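import Pool.Agent.W617.LG.AsmI
import Pool.Agent.W490.LG.Tr2
import Pool.Agent.W304.LG.Poin
import Pool.Agent.W395.LG.UNI
import Pool.Agent.W882.LG.Smn
import Pool.Agent.W196.LG.Sur
import Pool.Agent.W414.LG.Inv
import Pool.Agent.W577.LG.Cc1
import Pool.Agent.W431.LG.CC2
import Pool.Agent.W828.LG.JF
import Pool.Agent.W471.LG.TAU
import Pool.Agent.W348.LG.Iso
/-! Laugwitz' problem (MP_7dd29b_gt): assembly of Part I. -/
set_option autoImplicit false

namespace Pool.Agent.W617.LG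

theorem main1 (hNF : S_NF) (hINJ : S_INJ) (hKEY : S_KEY) : S_I :=
  partI hNF Pool.Agent.W348.LG.t_ISO (Pool.Agent.W414.LG.inv Pool.Agent.W882.LG.Smn.smn hINJ Pool.Agent.W196.LG.t_SUR)
    Pool.Agent.W577.LG.s_CC1 Pool.Agent.W431.LG.main Pool.Agent.W828.LG.jf hKEY
    (Pool.Agent.W471.LG.tau Pool.Agent.W304.LG.Poin.main)

end Pool.Agent.W617.LG
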