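import Pool.Agent.W617.LG.Asm4
import Pool.Agent.W617.LG.Asm1
import Pool.Agent.W298.LG.Fib
import Pool.Agent.W961.LG.NFm
import Pool.Agent.W308.LGS.Ser
import Pool.Agent.W645.LG.Key
import Pool.Agent.W465.LG.Div
import Pool.Agent.W933.LG.Eig
import Pool.Agent.W369.LG.Inj
import Pool.Agent.W351.LG.Frm
import Pool.Agent.W137.LG.Str
import Pool.Agent.W550.LG.PartV
/-! Laugwitz' problem (MP_7dd29b_gt): everything except S_RANK and S_TR1. -/
set_option autoImplicit false

namespace Pool.Agent.W617.LG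

theorem s_I : S_I := by
  have hSER : S_SER := Pool.Agent.W308.LGS.main Pool.Agent.W304.LG.Poin.main
  have hNF : S_NF := Pool.Agent.W961.LG.nf hSER Pool.Agent.W395.LG.t_UNI
  exact main1 hNF Pool.Agent.W369.LG.inj (Pool.Agent.W645.LG.key Pool.Agent.W395.LG.t_UNI)

theorem s_MAIN (hR : S_RANK) : S_MAIN := by
  have hF : S_FRAME' := Pool.Agent.W351.LG.Frm.frm Pool.Agent.W933.LG.t_EIG
  have hS : S_STR := Pool.Agent.W137.LG.str
  have hD : S_DIV := Pool.Agent.W465.LG.lg_div hS
  exact main4 hF hS hD Pool.Agent.W298.LG.fib hR Pool.Agent.W550.LG.partV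

end Pool.Agent.W617.LG
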