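import Pool.Agent.W550.LG2.Stm
/-! LG2-LOC (MP_7dd29b_gt): local bounds near a point of maximal rank. -/
set_option autoImplicit false
set_option maxSynthPendingDepth 6
open Topology Filter Set
open scoped ContDiff InnerProductSpace

namespace Pool.Agent.W617.LG
open Pool.Agent.W550.LG2

lemma sum_norm_le {r : ℕ} {F : Type*} [NormedAddCommGroup F] [NormedSpace ℝ F] (t : Fin r → ℝ)
    (f : Fin r → F) : ‖∑ i, t i • f i‖ ≤ ‖t‖ * ∑ i, ‖f i‖ := by
  calc ‖∑ i, t i • f i‖ ≤ ∑ i, ‖t i • f i‖ := norm_sum_le _ _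
    _ ≤ ∑ i, ‖t‖ * ‖f i‖ := by
        refine Finset.sum_le_sum fun i _ => ?_
        rw [norm_smul]
        exact mul_le_mul_of_nonneg_right (norm_le_pi_norm t i) (norm_nonneg _)
    _ = _ := by rw [Finset.mul_sum]

lemma li_bound {r : ℕ} {F : Type*} [NormedAddCommGroup F] [NormedSpace ℝ F] (f : Fin r → F)
    (hf : LinearIndependent ℝ f) : ∃ K : ℝ, 0 < K ∧ ∀ t : Fin r → ℝ, ‖t‖ ≤ K * ‖∑ i, t i • f i‖ := by
  have hk : LinearMap.ker (Fintype.linearCombination ℝ f) = ⊥ := by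
    rw [LinearMap.ker_eq_bot']
    intro t ht
    rw [Fintype.linearCombination_apply] at ht
    funext i
    exact Fintype.linearIndependent_iff.1 hf t ht i
  obtain ⟨K, hK, hanti⟩ := LinearMap.exists_antilipschitzWith _ hk
  refine ⟨K, by exact_mod_cast hK, fun t => ?_⟩
  have := hanti.le_mul_dist t 0
  simpa [Fintype.linearCombination_apply] using this

theorem loc (hKer : S_KER) (hKK : S_KK) : S_LOC := by
  intro q C τ hL r hM y hy hrk
  obtain ⟨v, hv⟩ := hrk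
  obtain ⟨K, hK, hKb⟩ := li_bound _ hv
  have hCc : ContinuousAt C y := (hL.smooth y hy).continuousAt
  have hDc : ContinuousAt (fderiv ℝ C) y :=
    ((hL.smooth y hy).fderiv_right (m := ∞) (by simp)).continuousAt
  -- bounds near y
  have e1 : ∀ᶠ y' in 𝓝 y, y' ≠ 0 := isOpen_ne.mem_nhds hy
  have e2 : ∀ᶠ y' in 𝓝 y, ‖C y'‖ < ‖C y‖ + 1 :=
    ((@continuous_norm (E q →L[ℝ] E q →L[ℝ] E q) _).continuousAt.comp hCc).eventually_lt_const
      (by simp)
  have e3 : ∀ᶠ y' in 𝓝 y, ‖fderiv ℝ C y'‖ < ‖fderiv ℝ C y‖ + 1 :=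
    ((@continuous_norm (E q →L[ℝ] E q →L[ℝ] E q →L[ℝ] E q) _).continuousAt.comp
      hDc).eventually_lt_const (by simp)
  have e4 : ∀ᶠ y' in 𝓝 y, ∑ i, ‖(C y' - C y) (v i)‖ < 1 / (2 * K) := by
    have hc : ContinuousAt (fun y' => ∑ i, ‖(C y' - C y) (v i)‖) y := by
      refine tendsto_finset_sum _ fun i _ => ?_
      exact ((hCc.sub continuousAt_const).clm_apply continuousAt_const).norm
    refine hc.eventually_lt_const ?_
    simp only [sub_self, ContinuousLinearMap.zero_apply]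
    have : ∑ i : Fin r, ‖(0 : E q →L[ℝ] E q)‖ = 0 := by simp
    have h0 : 0 < 1 / (2 * K) := by positivity
    simpa using h0
  set V : ℝ := ∑ i, ‖v i‖ with hV
  have hV0 : 0 ≤ V := Finset.sum_nonneg fun i _ => norm_nonneg _
  set c0 : ℝ := V * (2 * K) with hc0
  have hc00 : 0 ≤ c0 := by positivity
  set D1 : ℝ := ‖C y‖ + 1 with hD1
  set D0 : ℝ := ‖fderiv ℝ C y‖ + 1 with hD0
  have hD1p : 0 < D1 := by positivity
  have hD0p : 0 < D0 := by positivity
  refine ⟨D0 * (2 + c0 * D1) * c0 + c0 * D0 + 1, by positivity, ?_⟩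
  filter_upwards [e1, e2, e3, e4] with y' h1 h2 h3 h4
  have hb : ∀ t : Fin r → ℝ, ‖t‖ ≤ 2 * K * ‖∑ i, t i • C y' (v i)‖ := by
    intro t
    have ha : ∑ i, t i • C y (v i) = ∑ i, t i • C y' (v i) - ∑ i, t i • (C y' - C y) (v i) := by
      rw [← Finset.sum_sub_distrib]
      refine Finset.sum_congr rfl fun i _ => ?_
      rw [← smul_sub]
      congr 1
      simp
    have hb1 : ‖∑ i, t i • C y (v i)‖ ≤ ‖∑ i, t i • C y' (v i)‖ + ‖t‖ * (1 / (2 * K)) := by
      rw [ha]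
      refine (norm_sub_le _ _).trans ?_
      gcongr
      exact (sum_norm_le t _).trans (mul_le_mul_of_nonneg_left h4.le (norm_nonneg _))
    have hb2 := (hKb t).trans (mul_le_mul_of_nonneg_left hb1 hK.le)
    have hb3 : K * (‖t‖ * (1 / (2 * K))) = ‖t‖ / 2 := by field_simp
    rw [mul_add, hb3] at hb2
    linarith
  have hli : LinearIndependent ℝ (fun i => C y' (v i)) := by
    rw [Fintype.linearIndependent_iff]
    intro t ht i
    have := hb t
    rw [ht, norm_zero, mul_zero] at this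
    have ht0 : t = 0 := norm_le_zero_iff.1 this
    rw [ht0]; rfl
  have hrk' : RK C r y' := ⟨v, hli⟩
  obtain ⟨k1, k2⟩ := hKer q C τ hL r hM y' v h1 hli
  have hkk := hKK q C τ hL r hM y' h1 hrk'
  have hsolve : ∀ T : E q →L[ℝ] E q, T ∈ Submodule.span ℝ (range fun i => C y' (v i)) →
      ∃ b : E q, C y' b = T ∧ ‖b‖ ≤ c0 * ‖T‖ := by
    intro T hT
    obtain ⟨t, ht⟩ := (Submodule.mem_span_range_iff_exists_fun ℝ).1 hT
    refine ⟨∑ i, t i • v i, ?_, ?_⟩
    · rw [map_sum, ← ht]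
      refine Finset.sum_congr rfl fun i _ => ?_
      rw [map_smul]
    · calc ‖∑ i, t i • v i‖ ≤ ‖t‖ * V := sum_norm_le t v
        _ ≤ (2 * K * ‖T‖) * V := by
            have := hb t
            rw [ht] at this
            exact mul_le_mul_of_nonneg_right this hV0
        _ = c0 * ‖T‖ := by rw [hc0]; ring
  constructor
  · intro w
    obtain ⟨u, hu1, hu2⟩ := hsolve (C y' w) (k1 w)
    have hwu : C y' (w - u) = 0 := by rw [map_sub, hu1, sub_self]
    have hz := (hkk (w - u) (w - u) hwu hwu).1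
    have hcod : fderiv ℝ C y' u w = fderiv ℝ C y' w u := hL.cod y' h1 u w
    have hD : fderiv ℝ C y' w w = fderiv ℝ C y' ((2 : ℝ) • w - u) u := by
      have h5 : fderiv ℝ C y' (w - u) (w - u) = fderiv ℝ C y' w w - fderiv ℝ C y' w u
          - (fderiv ℝ C y' u w - fderiv ℝ C y' u u) := by
        simp only [map_sub, ContinuousLinearMap.sub_apply]
        abel
      rw [hz, hcod] at h5
      have h6 : fderiv ℝ C y' ((2 : ℝ) • w - u) u
          = fderiv ℝ C y' w u + fderiv ℝ C y' w u - fderiv ℝ C y' u u := by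
        rw [two_smul]
        simp only [map_sub, map_add, ContinuousLinearMap.sub_apply, ContinuousLinearMap.add_apply]
      rw [h6]
      have h7 := h5.symm
      rw [← sub_eq_zero]
      rw [← h7]
      abel
    have hun : ‖u‖ ≤ c0 * D1 * ‖w‖ := by
      calc ‖u‖ ≤ c0 * ‖C y' w‖ := hu2
        _ ≤ c0 * (‖C y'‖ * ‖w‖) := by gcongr; exact ContinuousLinearMap.le_opNorm _ _
        _ ≤ c0 * (D1 * ‖w‖) := by gcongr
        _ = _ := by ring
    rw [hD]
    have h8 : ‖(2 : ℝ) • w - u‖ ≤ (2 + c0 * D1) * ‖w‖ := by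
      calc ‖(2 : ℝ) • w - u‖ ≤ ‖(2 : ℝ) • w‖ + ‖u‖ := norm_sub_le _ _
        _ ≤ 2 * ‖w‖ + c0 * D1 * ‖w‖ := by
            rw [norm_smul]
            simp only [Real.norm_ofNat]
            gcongr
        _ = _ := by ring
    calc ‖fderiv ℝ C y' ((2 : ℝ) • w - u) u‖ ≤ ‖fderiv ℝ C y' ((2 : ℝ) • w - u)‖ * ‖u‖ :=
          ContinuousLinearMap.le_opNorm _ _
      _ ≤ (‖fderiv ℝ C y'‖ * ‖(2 : ℝ) • w - u‖) * ‖u‖ := by
          gcongr; exact ContinuousLinearMap.le_opNorm _ _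
      _ ≤ (D0 * ((2 + c0 * D1) * ‖w‖)) * (c0 * ‖C y' w‖) := by gcongr
      _ = (D0 * (2 + c0 * D1) * c0) * ‖w‖ * ‖C y' w‖ := by ring
      _ ≤ (D0 * (2 + c0 * D1) * c0 + c0 * D0 + 1) * ‖w‖ * ‖C y' w‖ := by
          have h9 : 0 ≤ c0 * D0 + 1 := by positivity
          have : D0 * (2 + c0 * D1) * c0 ≤ D0 * (2 + c0 * D1) * c0 + c0 * D0 + 1 := by linarith
          gcongr
  · intro w hw a
    have hcod : fderiv ℝ C y' w a = fderiv ℝ C y' a w := hL.cod y' h1 w a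
    obtain ⟨b, hb1, hb2⟩ := hsolve (fderiv ℝ C y' w a) (by rw [hcod]; exact k2 a w hw)
    refine ⟨b, hb1.symm, ?_⟩
    calc ‖b‖ ≤ c0 * ‖fderiv ℝ C y' w a‖ := hb2
      _ ≤ c0 * (‖fderiv ℝ C y' w‖ * ‖a‖) := by gcongr; exact ContinuousLinearMap.le_opNorm _ _
      _ ≤ c0 * ((‖fderiv ℝ C y'‖ * ‖w‖) * ‖a‖) := by
          gcongr; exact ContinuousLinearMap.le_opNorm _ _
      _ ≤ c0 * ((D0 * ‖w‖) * ‖a‖) := by gcongr
      _ = (c0 * D0) * ‖w‖ * ‖a‖ := by ring
      _ ≤ (D0 * (2 + c0 * D1) * c0 + c0 * D0 + 1) * ‖w‖ * ‖a‖ := by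
          have h9 : 0 ≤ D0 * (2 + c0 * D1) * c0 := by positivity
          have : c0 * D0 ≤ D0 * (2 + c0 * D1) * c0 + c0 * D0 + 1 := by linarith
          gcongr

end Pool.Agent.W617.LG
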