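import Pool.Agent.W550.LG2.Stm
/-! LG2-QUAD (MP_7dd29b_gt): the quadratic identity. -/
set_option autoImplicit false
set_option maxSynthPendingDepth 6
open Topology Filter Set
open scoped ContDiff InnerProductSpace

namespace Pool.Agent.W617.LG
open Pool.Agent.W550.LG2

theorem quad (hSym : S_SYM) : S_QUAD := by
  intro q C τ hL x hx w hw hww z j
  -- the line
  let ℓ : ℝ → E q := fun t => x + t • z
  have hℓ : ∀ t, HasDerivAt ℓ z t := by
    intro t
    exact (((hasDerivAt_id t).smul_const z).const_add x).congr_deriv (one_smul ℝ z)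
  have hℓc : ContinuousAt ℓ 0 := (hℓ 0).continuousAt
  have hℓ0 : ℓ 0 = x := by simp [ℓ]
  have hne : ∀ᶠ t in 𝓝 (0 : ℝ), ℓ t ≠ 0 := by
    have : ∀ᶠ y in 𝓝 (ℓ 0), y ≠ 0 := by rw [hℓ0]; exact isOpen_ne.mem_nhds hx
    exact hℓc.eventually this
  have hC : ∀ t, ℓ t ≠ 0 → HasDerivAt (fun t => C (ℓ t)) (fderiv ℝ C (ℓ t) z) t := by
    intro t ht
    have h1 : HasFDerivAt C (fderiv ℝ C (ℓ t)) (ℓ t) :=
      ((hL.smooth _ ht).differentiableAt (by simp)).hasFDerivAt
    exact h1.comp_hasDerivAt t (hℓ t)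
  have hD : ContDiffAt ℝ ∞ (fderiv ℝ C) x := (hL.smooth x hx).fderiv_right (m := ∞) (by simp)
  have hDd : HasFDerivAt (fderiv ℝ C) (fderiv ℝ (fderiv ℝ C) (ℓ 0)) (ℓ 0) := by
    rw [hℓ0]; exact (hD.differentiableAt (by simp)).hasFDerivAt
  have hD1 : HasDerivAt (fun t => fderiv ℝ C (ℓ t)) (fderiv ℝ (fderiv ℝ C) (ℓ 0) z) 0 :=
    hDd.comp_hasDerivAt (0 : ℝ) (hℓ 0)
  -- the operators
  let A : ℝ → (E q →L[ℝ] E q) := fun t => C (ℓ t) w
  let B : ℝ → (E q →L[ℝ] E q) := fun t => C (ℓ t) j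
  let A1 : ℝ → (E q →L[ℝ] E q) := fun t => fderiv ℝ C (ℓ t) z w
  let B1 : ℝ → (E q →L[ℝ] E q) := fun t => fderiv ℝ C (ℓ t) z j
  have hA : ∀ t, ℓ t ≠ 0 → HasDerivAt A (A1 t) t := by
    intro t ht
    have := (hC t ht).clm_apply (hasDerivAt_const t w)
    simpa using this
  have hB : ∀ t, ℓ t ≠ 0 → HasDerivAt B (B1 t) t := by
    intro t ht
    have := (hC t ht).clm_apply (hasDerivAt_const t j)
    simpa using this
  obtain ⟨A2, hA1⟩ : ∃ A2, HasDerivAt A1 A2 0 :=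
    ⟨_, (hD1.clm_apply (hasDerivAt_const 0 z)).clm_apply (hasDerivAt_const 0 w)⟩
  obtain ⟨B2, hB1⟩ : ∃ B2, HasDerivAt B1 B2 0 :=
    ⟨_, (hD1.clm_apply (hasDerivAt_const 0 z)).clm_apply (hasDerivAt_const 0 j)⟩
  have hx0 : ℓ 0 ≠ 0 := by rw [hℓ0]; exact hx
  -- first derivatives
  have hp : ∀ t, ℓ t ≠ 0 → HasDerivAt (fun t => A t (B t w)) (A1 t (B t w) + A t (B1 t w)) t := by
    intro t ht
    have h1 := (hB t ht).clm_apply (hasDerivAt_const t w)
    have h2 := (hA t ht).clm_apply h1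
    simpa using h2
  have hr : ∀ t, ℓ t ≠ 0 → HasDerivAt (fun t => B t (A t w)) (B1 t (A t w) + B t (A1 t w)) t := by
    intro t ht
    have h1 := (hA t ht).clm_apply (hasDerivAt_const t w)
    have h2 := (hB t ht).clm_apply h1
    simpa using h2
  have heq : (fun t => A t (B t w)) =ᶠ[𝓝 0] (fun t => B t (A t w)) := by
    filter_upwards [hne] with t ht
    exact hL.comm _ ht w j w
  have heq1 : (fun t => A1 t (B t w) + A t (B1 t w)) =ᶠ[𝓝 0] (fun t => B1 t (A t w) + B t (A1 t w)) := by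
    filter_upwards [heq.eventually_nhds, hne] with t h1 h2
    exact ((hp t h2).congr_of_eventuallyEq (EventuallyEq.symm h1)).unique (hr t h2)
  -- second derivatives
  have hp2 : HasDerivAt (fun t => A1 t (B t w) + A t (B1 t w))
      (A2 (B 0 w) + A1 0 (B1 0 w) + (A1 0 (B1 0 w) + A 0 (B2 w))) 0 := by
    have h1 := (hB 0 hx0).clm_apply (hasDerivAt_const (0 : ℝ) w)
    have h2 := hA1.clm_apply h1
    have h3 := hB1.clm_apply (hasDerivAt_const (0 : ℝ) w)
    have h4 := (hA 0 hx0).clm_apply h3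
    refine (h2.fun_add h4).congr_deriv ?_
    simp
  have hr2 : HasDerivAt (fun t => B1 t (A t w) + B t (A1 t w))
      (B2 (A 0 w) + B1 0 (A1 0 w) + (B1 0 (A1 0 w) + B 0 (A2 w))) 0 := by
    have h1 := (hA 0 hx0).clm_apply (hasDerivAt_const (0 : ℝ) w)
    have h2 := hB1.clm_apply h1
    have h3 := hA1.clm_apply (hasDerivAt_const (0 : ℝ) w)
    have h4 := (hB 0 hx0).clm_apply h3
    refine (h2.fun_add h4).congr_deriv ?_
    simp
  have hkey := (hp2.congr_of_eventuallyEq heq1.symm).unique hr2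
  -- simplify
  obtain ⟨s1, -, -, -, -, -⟩ := hSym q C τ hL x hx z w w w
  have a0 : A 0 = 0 := by simp only [A, hℓ0, hw]
  have b0 : B 0 w = 0 := by
    simp only [B, hℓ0]
    rw [hL.comm12 x hx, hw]; rfl
  have a1 : A1 0 = fderiv ℝ C x w z := by
    simp only [A1, hℓ0]
    exact hL.cod x hx z w
  have a1w : A1 0 w = 0 := by
    rw [a1, (hSym q C τ hL x hx w z w w).2.1, hww]; rfl
  have b1w : B1 0 w = fderiv ℝ C x w z j := by
    simp only [B1, hℓ0]
    rw [(hSym q C τ hL x hx z j w w).2.1, (hSym q C τ hL x hx z w j w).1]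
  have a2w : A2 w = D2 C x w w z z := by
    have h1 : A2 w = D2 C x z z w w := by
      have h2 : HasDerivAt (fun t => fderiv ℝ C (ℓ t) z w w) (A2 w) 0 := by
        have := hA1.clm_apply (hasDerivAt_const (0 : ℝ) w)
        simpa using this
      have h3 : HasFDerivAt (fun y => fderiv ℝ C y z w w)
          (fderiv ℝ (fun y => fderiv ℝ C y z w w) (ℓ 0)) (ℓ 0) := by
        have h4 := (((hDd.clm_apply (hasFDerivAt_const z (ℓ 0))).clm_apply
          (hasFDerivAt_const w (ℓ 0))).clm_apply (hasFDerivAt_const w (ℓ 0)))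
        exact h4.differentiableAt.hasFDerivAt
      have h5 := h3.comp_hasDerivAt (0 : ℝ) (hℓ 0)
      have h6 := h2.unique h5
      rw [h6, hℓ0]; rfl
    rw [h1]
    rw [(hSym q C τ hL x hx z z w w).2.2.2.2.1, (hSym q C τ hL x hx z w z w).2.2.2.1,
      (hSym q C τ hL x hx w z z w).2.2.2.2.2, (hSym q C τ hL x hx w z w z).2.2.2.2.1]
  rw [a0, b0, a1w, b1w, a1, a2w] at hkey
  simp only [map_zero, ContinuousLinearMap.zero_apply, zero_add, add_zero] at hkey
  rw [two_smul, hkey]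
  simp only [B, hℓ0]

end Pool.Agent.W617.LG
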