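import Pool.Agent.W741.LG.Fin
import Pool.Agent.W550.LG.StmV
/-! LG-FIN (MP_7dd29b_gt): the final contradiction, with the form of Part V proved by helper550
(adapted from Pool.Agent.W741.LG.Fin). -/
set_option autoImplicit false
set_option maxSynthPendingDepth 4
open Topology Filter Set MeasureTheory
open scoped ContDiff InnerProductSpace

namespace Pool.Agent.W617.LG
open Pool.Agent.W741.LG

theorem lg_fin2 (hX : S_SMX) (hO : S_SMO) (hR : S_RANK) (hC : S_CURVE) (hV : Pool.Agent.W550.LG.PartV) : S_MAIN := by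
  intro q C τ hL x0 hx0
  by_contra hne
  obtain ⟨A, B, p0, p1, p2, p3, z, hA0, h01, h12, h23, h3B, hz, ht1, ht2, ht3⟩ :=
    hC q C τ hL (hR q C τ hL ⟨x0, hx0, hne⟩)
  obtain ⟨hOo, hOs, -⟩ := hX q C τ hL
  have hzs : ContDiffOn ℝ ∞ z (Ioo A B) := by
    refine hO q (V1 C) (Om C) hOo hOs A B z (fun t ht => ⟨⟨?_, ?_⟩, (hz t ht).2.2⟩)
    · exact (hz t ht).1.x0
    · exact (hz t ht).1.pos
  have hzA : ∀ s ∈ Ioo A B, ContDiffAt ℝ ∞ z s := fun s hs =>
    (hzs s hs).contDiffAt (Ioo_mem_nhds hs.1 hs.2)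
  have hxA : ∀ s ∈ Ioo A B, ContDiffAt ℝ ∞ (fun s => (z s).1) s := fun s hs => (hzA s hs).fst
  have heA : ∀ i, ∀ s ∈ Ioo A B, ContDiffAt ℝ ∞ (fun s => (z s).2 i) s := fun i s hs =>
    (contDiffAt_pi.1 (hzA s hs).snd) i
  have hCA : ∀ s ∈ Ioo A B, ContDiffAt ℝ ∞ (fun s => C (z s).1) s := fun s hs =>
    (hL.smooth _ (hz s hs).1.x0).comp s (hxA s hs)
  have hDA : ∀ s ∈ Ioo A B, ContDiffAt ℝ ∞ (fun s => fderiv ℝ C (z s).1) s := fun s hs =>
    ((hL.smooth _ (hz s hs).1.x0).fderiv_right (m := ∞) (by simp)).comp s (hxA s hs)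
  have hlamA : ∀ i, ∀ s ∈ Ioo A B, ContDiffAt ℝ ∞ (fun s => lam C (z s).1 ((z s).2 i)) s := by
    intro i s hs
    exact (((hCA s hs).clm_apply (heA i s hs)).clm_apply (heA i s hs)).inner ℝ (heA i s hs)
  have hbbA : ∀ l : Fin q, ∀ s ∈ Ioo A B, ContDiffAt ℝ ∞ (fun s => bb C (z s).1 (z s).2 l) s := by
    intro l s hs
    have h1 : ContDiffAt ℝ ∞ (fun s => dlam C (z s).1 ((z s).2 0) ((z s).2 l.succ)) s :=
      ((((hDA s hs).clm_apply (heA 0 s hs)).clm_apply (heA l.succ s hs)).clm_apply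
        (heA l.succ s hs)).inner ℝ (heA l.succ s hs)
    refine h1.div ((hlamA l.succ s hs).pow 2) ?_
    exact pow_ne_zero 2 ((hz s hs).1.pos l).ne'
  let lm : ℝ → ℝ := fun s => lam C (z s).1 ((z s).2 0)
  let Lam : ℝ → ℝ := fun s => τ (z s).1
  let beta : ℝ → EuclideanSpace ℝ (Fin q) := fun s => WithLp.toLp 2 (fun l => bb C (z s).1 (z s).2 l)
  have hlm : ContDiffOn ℝ ∞ lm (Ioo A B) := fun s hs => (hlamA 0 s hs).contDiffWithinAt
  have hbeta : ContDiffOn ℝ ∞ beta (Ioo A B) := by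
    rw [contDiffOn_euclidean]
    exact fun l s hs => (hbbA l s hs).contDiffWithinAt
  have hx' : ∀ s ∈ Ioo A B, HasDerivAt (fun s => (z s).1) ((z s).2 0) s := fun s hs => by
    have := (hz s hs).2.2
    exact this.fst
  have he' : ∀ i, ∀ s ∈ Ioo A B, HasDerivAt (fun s => (z s).2 i) (v2 C (z s).1 (z s).2 i) s := by
    intro i s hs
    have := (hz s hs).2.2.snd
    exact (hasDerivAt_pi.1 this) i
  have hLam : ∀ s ∈ Ioo A B, HasDerivAt Lam (lm s) s := by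
    intro s hs
    have hx1 := (hz s hs).1.x0
    have h1 : HasFDerivAt τ (fderiv ℝ τ (z s).1) (z s).1 :=
      ((hL.tau_smooth _ hx1).differentiableAt (by simp)).hasFDerivAt
    have h2 := h1.comp_hasDerivAt s (hx' s hs)
    have h3 : fderiv ℝ τ (z s).1 ((z s).2 0) = lm s := by
      rw [hL.tau_deriv _ hx1]
      exact trCe0 hL (hz s hs).1.toAF (hz s hs).2.1
    rw [h3] at h2
    exact h2
  obtain ⟨t, ht0, s0, s1, hs0', hs01, hs1', hfin⟩ :=
    hV q A B p0 p1 p2 p3 lm Lam beta hlm hbeta hLam hA0 h3B ⟨h01, h12, h23, ht1, ht2, ht3⟩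
  have hs0 : A < s0 := hA0.trans_le hs0'
  have hs1 : s1 < B := hs1'.trans_lt h3B
  have hs0m : s0 ∈ Ioo A B := ⟨hs0, hs01.trans hs1⟩
  have hs1m : s1 ∈ Ioo A B := ⟨hs0.trans hs01, hs1⟩
  obtain ⟨W, hWu, hWd, hWle⟩ := hL.key t (z s0).1 (hz s0 hs0m).2.1
  have hW' : ∀ s ∈ Ioo A B, HasDerivAt (fun s => W (z s).1)
      ((t * (lm s * ⟪(z s).2 0, W (z s).1⟫_ℝ)) • (z s).2 0) s := by
    intro s hs
    have h2 := (hWd _ (hz s hs).1.x0).comp_hasDerivAt s (hx' s hs)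
    have h3 : (t • (C (z s).1).flip (W (z s).1)) ((z s).2 0)
        = (t * (lm s * ⟪(z s).2 0, W (z s).1⟫_ℝ)) • (z s).2 0 := by
      rw [smul_apply, ContinuousLinearMap.flip_apply,
        Ce0 hL (hz s hs).1.toAF (hz s hs).2.1, smul_smul]
    rw [h3] at h2
    exact h2
  let c : ℝ → ℝ := fun s => ⟪(z s).1, W (z s).1⟫_ℝ
  let a : ℝ → ℝ := fun s => ⟪(z s).2 0, W (z s).1⟫_ℝ
  let psi : ℝ → EuclideanSpace ℝ (Fin q) := fun s => WithLp.toLp 2 (fun l => ⟪(z s).2 l.succ, W (z s).1⟫_ℝ)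
  have hone : ∀ s ∈ Ioo A B, ⟪(z s).2 0, (z s).2 0⟫_ℝ = 1 := by
    intro s hs
    have := (hz s hs).1.on 0 0
    simpa using this
  have hc' : ∀ s ∈ Ioo A B, HasDerivAt c (a s) s := by
    intro s hs
    have h := (hx' s hs).inner ℝ (hW' s hs)
    refine h.congr_deriv ?_
    rw [inner_smul_right, (hz s hs).1.rad 0]
    simp [a]
  have ha' : ∀ s ∈ Ioo A B,
      HasDerivAt a (t * lm s * a s - c s + lm s * ⟪beta s, psi s⟫_ℝ) s := by
    intro s hs
    have h := (he' 0 s hs).inner ℝ (hW' s hs)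
    refine h.congr_deriv ?_
    have e1 : ⟪beta s, psi s⟫_ℝ = ∑ l : Fin q, bb C (z s).1 (z s).2 l * ⟪(z s).2 l.succ, W (z s).1⟫_ℝ := by
      rw [PiLp.inner_apply]
      apply Finset.sum_congr rfl
      intro l _
      simp [beta, psi, mul_comm]
    rw [inner_smul_right, hone s hs, e1]
    simp only [v2, Fin.cons_zero, (hz s hs).2.1]
    rw [inner_add_left, inner_smul_left, inner_smul_left, sum_inner]
    simp only [inner_smul_left, lm, a, c]
    simp
    ring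
  have hp' : ∀ s ∈ Ioo A B, HasDerivAt psi (-(lm s * a s) • beta s) s := by
    intro s hs
    have h : HasDerivAt (fun s => (fun l : Fin q => ⟪(z s).2 l.succ, W (z s).1⟫_ℝ))
        (fun l : Fin q => -(lm s * a s) * bb C (z s).1 (z s).2 l) s := by
      rw [hasDerivAt_pi]
      intro l
      have h := (he' l.succ s hs).inner ℝ (hW' s hs)
      refine h.congr_deriv ?_
      rw [inner_smul_right]
      have h0 := (hz s hs).1.on l.succ 0
      rw [if_neg (Fin.succ_ne_zero l)] at h0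
      rw [h0]
      simp only [v2, Fin.cons_succ, inner_smul_left, lm, a]
      simp
      ring
    have h2 := ((PiLp.continuousLinearEquiv 2 ℝ (fun _ : Fin q => ℝ)).symm
      : (Fin q → ℝ) →L[ℝ] EuclideanSpace ℝ (Fin q)).hasFDerivAt.comp_hasDerivAt s h
    refine h2.congr_deriv ?_
    ext l
    simp [beta]
  have hSol : Pool.Agent.W550.LG.Sol lm beta t s0 s1 c a psi := by
    refine ⟨?_, ?_, ?_, ?_, ?_, ?_⟩
    · simp only [c, hWu]
      rw [real_inner_self_eq_norm_sq, (hz s0 hs0m).2.1]; norm_num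
    · simp only [a, hWu]
      rw [real_inner_comm, (hz s0 hs0m).1.rad 0]
    · ext l
      simp only [psi, hWu]
      rw [real_inner_comm, (hz s0 hs0m).1.rad l.succ]
      simp
    · intro s hs
      exact hc' s ⟨lt_of_lt_of_le hs0 hs.1, lt_of_le_of_lt hs.2 hs1⟩
    · intro s hs
      exact ha' s ⟨lt_of_lt_of_le hs0 hs.1, lt_of_le_of_lt hs.2 hs1⟩
    · intro s hs
      exact hp' s ⟨lt_of_lt_of_le hs0 hs.1, lt_of_le_of_lt hs.2 hs1⟩
  obtain ⟨s, hs, hkey⟩ := hfin c a psi hSol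
  have hsm : s ∈ Ioo A B := ⟨lt_of_lt_of_le hs0 hs.1, lt_of_le_of_lt hs.2 hs1⟩
  have h1 := hWle (z s).1 (hz s hsm).2.1
  rw [real_inner_comm] at h1
  exact absurd hkey (not_lt.2 h1)

end Pool.Agent.W617.LG
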