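import Pool.Agent.W617.LG.AsmI
import Pool.Agent.W617.LG.Fin
import Pool.Agent.W298.LG.Smx
import Pool.Agent.W298.LG.Cpt
import Pool.Agent.W298.LG.Unq
import Pool.Agent.W298.LG.Smo
import Pool.Agent.W704.LG.Tan
import Pool.Agent.W577.LG.Flc
import Pool.Agent.W377.LG4.FLT
import Pool.Agent.W348.LG.Fl
import Pool.Agent.W298.LG.Liou
import Pool.Agent.W304.LG.Jac
import Pool.Agent.W704.LG.Ret
import Pool.Agent.W646.LG.Udu
import Pool.Agent.W764.LG.Rep
/-! Laugwitz' problem (MP_7dd29b_gt): assembly of Parts II, IV and the final step. -/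
set_option autoImplicit false

namespace Pool.Agent.W617.LG

theorem partIV (hF : S_FRAME') (hS : S_STR) (hD : S_DIV) (hB : S_FIB) : S_CURVE := by
  have hX := Pool.Agent.W298.LG.smx
  have hU := Pool.Agent.W298.LG.unq
  have hT : S_TAN := Pool.Agent.W704.LG.tan hF hS hX hU
  have hFLT : S_FLT := Pool.Agent.W377.LG4.flt hX Pool.Agent.W298.LG.cpt hT Pool.Agent.W577.LG.s_FLC
  have hFL : S_FL := Pool.Agent.W348.LG.t_FL hFLT hU hX
  have hJ : S_JAC := Pool.Agent.W304.LG.Jac.main hF hD hB Pool.Agent.W298.LG.liou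
  exact Pool.Agent.W764.LG.curve hFL (Pool.Agent.W646.LG.udu hF hB hJ Pool.Agent.W704.LG.ret)

theorem main4 (hF : S_FRAME') (hS : S_STR) (hD : S_DIV) (hB : S_FIB) (hR : S_RANK)
    (hV : Pool.Agent.W550.LG.PartV) : S_MAIN :=
  lg_fin2 Pool.Agent.W298.LG.smx Pool.Agent.W298.LG.smo hR (partIV hF hS hD hB) hV

end Pool.Agent.W617.LG
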