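import Pool.Agent.W617.LG.StmI
/-! Laugwitz' problem (MP_7dd29b_gt): assembly of Part I and of the final statement. -/
set_option autoImplicit false
open Topology Filter Set Matrix
open scoped ContDiff InnerProductSpace

namespace Pool.Agent.W617.LG

theorem partI (hNF : S_NF) (hISO : S_ISO) (hINV : S_INV) (hCC1 : S_CC1) (hCC2 : S_CC2) (hJF : S_JF)
    (hKEY : S_KEY) (hTAU : S_TAU) : S_I := by
  intro q G M hd
  obtain ⟨N, nf⟩ := hNF q G M hd
  obtain ⟨A, hA, hiso⟩ := hISO q G M N hd nf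
  obtain ⟨Y, td⟩ := hINV q G M N A hd nf hA hiso
  have h1 := hCC1 q G M N A Y td
  have h2 := hCC2 q G M N A Y td
  have cw : CW q (CC M N A Y) :=
    { q1 := hd.q1
      smooth := h1.1
      comm12 := fun x hx => (h2 x hx).1
      symm := fun x hx => (h2 x hx).2.1
      rad := fun x hx => (h2 x hx).2.2.1
      hom := fun x hx => (h2 x hx).2.2.2.1
      cod := h1.2
      comm := fun x hx => (h2 x hx).2.2.2.2.1 }
  obtain ⟨τ, t1, t2, t3⟩ := hTAU q _ cw
  have jf := hJF q G M N A Y td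
  refine ⟨CC M N A Y, τ, ?_, ?_⟩
  · exact
      { q1 := hd.q1
        smooth := cw.smooth
        comm12 := cw.comm12
        symm := cw.symm
        rad := cw.rad
        hom := cw.hom
        cod := cw.cod
        comm := cw.comm
        tau_smooth := t1
        tau_deriv := t2
        tau_hom := t3
        key := hKEY q _ _ cw jf }
  · intro h y hy
    have hu : IsUnit (A * N 1 y) := td.unitA.mul (td.nf.unit 1 y hy)
    have hx : A (N 1 y y) ≠ 0 := by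
      intro h0
      apply hy
      obtain ⟨u, hu⟩ := hu
      have h3 : (A * N 1 y) y = 0 := h0
      have h4 : ((u⁻¹ : (E q →L[ℝ] E q)ˣ) : E q →L[ℝ] E q) ((A * N 1 y) y) = 0 := by rw [h3, map_zero]
      rw [← hu] at h4
      have h5 : (((u⁻¹ : (E q →L[ℝ] E q)ˣ) : E q →L[ℝ] E q) * (u : E q →L[ℝ] E q)) y = 0 := h4
      rw [Units.inv_mul] at h5
      exact h5
    have h6 := (h2 _ hx).2.2.2.2.2 (h _ hx)
    rwa [td.Yinv' y hy] at h6

theorem G_const {q : ℕ} {G : E q → E q →L[ℝ] E q} {M : TF q} (hd : HD q G M)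
    (hM : ∀ y, y ≠ 0 → M y = 0) (x y : E q) (hx : x ≠ 0) (hy : y ≠ 0) : G x = G y := by
  have hconn : IsPreconnected ({0}ᶜ : Set (E q)) := by
    have hrk : 1 < Module.rank ℝ (E q) := by
      rw [← Module.finrank_eq_rank]
      have : Module.finrank ℝ (E q) = q + 2 := by simp
      rw [this]
      exact_mod_cast (by omega : 1 < q + 2)
    exact (isConnected_compl_singleton_of_one_lt_rank hrk 0).isPreconnected
  refine isOpen_compl_singleton.is_const_of_fderiv_eq_zero (𝕜 := ℝ) hconn (f := G) ?_ ?_ hx hy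
  · intro z hz
    exact ((hd.Gsm z hz).differentiableAt (by simp)).differentiableWithinAt
  · intro z hz
    ext v : 1
    rw [hd.dG z hz v, hM z hz]
    have h1 : (0 : E q →L[ℝ] E q →L[ℝ] E q) v = 0 := rfl
    have h2 : (0 : E q → E q →L[ℝ] E q →L[ℝ] E q) z v = 0 := rfl
    rw [h1, ContinuousLinearMap.comp_zero, h2]
    exact smul_zero (A := E q →L[ℝ] E q) (2 : ℝ)

/-- the frozen statement from S_TR1, S_TR2, S_I, S_MAIN -/
theorem final (hTR1 : S_TR1) (hTR2 : S_TR2) (hI : S_I) (hMAIN : S_MAIN) :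
  ∀ (n : ℕ), 3 ≤ n → ∀ F : (Fin n → ℝ) → ℝ,
    ContDiffOn ℝ ((⊤ : ℕ∞) : WithTop ℕ∞) F {x | x ≠ 0} →
    (∀ x : Fin n → ℝ, x ≠ 0 → 0 < F x) →
    (∀ (t : ℝ) (x : Fin n → ℝ), 0 ≤ t → F (t • x) = t * F x) →
    (∀ x : Fin n → ℝ, x ≠ 0 →
      (Matrix.of fun i j : Fin n =>
        iteratedFDeriv ℝ 2 (fun y : Fin n → ℝ => F y ^ 2 / 2) x
          ![(Pi.single i (1 : ℝ) : Fin n → ℝ), (Pi.single j (1 : ℝ) : Fin n → ℝ)]).PosDef) →
    (∀ x : Fin n → ℝ, x ≠ 0 → ∀ i j k l : Fin n,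
      ∑ p : Fin n, ∑ q : Fin n,
        (Matrix.of fun a b : Fin n =>
          iteratedFDeriv ℝ 2 (fun y : Fin n → ℝ => F y ^ 2 / 2) x
            ![(Pi.single a (1 : ℝ) : Fin n → ℝ), (Pi.single b (1 : ℝ) : Fin n → ℝ)])⁻¹ p q *
        (iteratedFDeriv ℝ 3 (fun y : Fin n → ℝ => F y ^ 2 / 2) x
            ![(Pi.single i (1 : ℝ) : Fin n → ℝ), (Pi.single k (1 : ℝ) : Fin n → ℝ),
              (Pi.single p (1 : ℝ) : Fin n → ℝ)] *
          iteratedFDeriv ℝ 3 (fun y : Fin n → ℝ => F y ^ 2 / 2) x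
            ![(Pi.single j (1 : ℝ) : Fin n → ℝ), (Pi.single l (1 : ℝ) : Fin n → ℝ),
              (Pi.single q (1 : ℝ) : Fin n → ℝ)] -
         iteratedFDeriv ℝ 3 (fun y : Fin n → ℝ => F y ^ 2 / 2) x
            ![(Pi.single i (1 : ℝ) : Fin n → ℝ), (Pi.single l (1 : ℝ) : Fin n → ℝ),
              (Pi.single p (1 : ℝ) : Fin n → ℝ)] *
          iteratedFDeriv ℝ 3 (fun y : Fin n → ℝ => F y ^ 2 / 2) x
            ![(Pi.single j (1 : ℝ) : Fin n → ℝ), (Pi.single k (1 : ℝ) : Fin n → ℝ),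
              (Pi.single q (1 : ℝ) : Fin n → ℝ)]) = 0) →
    ∃ A : Matrix (Fin n) (Fin n) ℝ, A.PosDef ∧ ∀ x : Fin n → ℝ, F x = Real.sqrt (x ⬝ᵥ A *ᵥ x) := by
  intro n hn F h1 h2 h3 h4 h5
  obtain ⟨q, rfl⟩ : ∃ q, n = q + 2 := ⟨n - 2, by omega⟩
  have hq : 1 ≤ q := by omega
  obtain ⟨G, M, hd, hF⟩ := hTR1 q hq F h1 h2 h3 h4 h5
  obtain ⟨C, τ, lw, hC⟩ := hI q G M hd
  have hM := hC (hMAIN q C τ lw)
  have he : (EuclideanSpace.single (0 : Fin (q + 2)) (1 : ℝ) : E q) ≠ 0 := by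
    intro h
    have := congrArg (fun v : E q => v 0) h
    simp at this
  refine hTR2 q F (G (EuclideanSpace.single 0 1)) h2 h3 (hd.Gsymm _ he) (hd.Gpos _ he) ?_
  intro y hy
  rw [hF y hy, G_const hd hM _ y he hy]

end Pool.Agent.W617.LG
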