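import Mathlib
/-! Laugwitz' problem (MP_7dd29b_gt), all dimensions: interface between the parts of the proof.
`n = q + 2`, `q ≥ 1`.  Text: table heavy id 25 (helper550). -/
set_option autoImplicit false
open Topology Filter Set
open scoped ContDiff InnerProductSpace

namespace Pool.Agent.W617.LG

/-- `ℝ^(q+2)` with the Euclidean inner product -/
abbrev E (q : ℕ) := EuclideanSpace ℝ (Fin (q + 2))

/-- tensor fields: `C x a b` is the vector `C_a b` at the point `x` -/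
abbrev TF (q : ℕ) := E q → E q →L[ℝ] E q →L[ℝ] E q

/-- the data produced by Part I (in the flat coordinates `x`) -/
structure LW (q : ℕ) (C : TF q) (τ : E q → ℝ) : Prop where
  q1 : 1 ≤ q
  smooth : ∀ x, x ≠ 0 → ContDiffAt ℝ ∞ C x
  comm12 : ∀ x, x ≠ 0 → ∀ a b, C x a b = C x b a
  symm : ∀ x, x ≠ 0 → ∀ a b c, ⟪C x a b, c⟫_ℝ = ⟪C x a c, b⟫_ℝ
  rad : ∀ x, x ≠ 0 → C x x = 0
  hom : ∀ x, x ≠ 0 → ∀ r : ℝ, 0 < r → C (r • x) = r⁻¹ • C x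
  cod : ∀ x, x ≠ 0 → ∀ u v, fderiv ℝ C x u v = fderiv ℝ C x v u
  comm : ∀ x, x ≠ 0 → ∀ a b c, C x a (C x b c) = C x b (C x a c)
  tau_smooth : ∀ x, x ≠ 0 → ContDiffAt ℝ ∞ τ x
  tau_deriv : ∀ x, x ≠ 0 → ∀ v, fderiv ℝ τ x v = LinearMap.trace ℝ (E q) (C x v).toLinearMap
  tau_hom : ∀ x, x ≠ 0 → ∀ r : ℝ, 0 < r → τ (r • x) = τ x
  /-- the key inequality (I.7): `W(x) = J_t(x)^T J_t(u)^{-T} u` -/
  key : ∀ (t : ℝ) (u : E q), ‖u‖ = 1 → ∃ W : E q → E q, W u = u ∧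
    (∀ x, x ≠ 0 → HasFDerivAt W (t • (C x).flip (W x)) x) ∧ ∀ x, ‖x‖ = 1 → ⟪W x, x⟫_ℝ ≤ 1

/-- `C(v,v,v)` at `x` -/
noncomputable def lam {q : ℕ} (C : TF q) (x v : E q) : ℝ := ⟪C x v v, v⟫_ℝ

/-- `(D_w C)(v,v,v)` at `x` -/
noncomputable def dlam {q : ℕ} (C : TF q) (x w v : E q) : ℝ := ⟪fderiv ℝ C x w v v, v⟫_ℝ

/-- adapted frame at `x`: `x/|x|, e_0, ..., e_q` orthonormal and `C(e_i,e_j) = 0` for `i ≠ j`
(then `C(e_i,e_i) = lam e_i`) -/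
structure AF {q : ℕ} (C : TF q) (x : E q) (e : Fin (q + 1) → E q) : Prop where
  x0 : x ≠ 0
  on : ∀ i j, ⟪e i, e j⟫_ℝ = if i = j then 1 else 0
  rad : ∀ i, ⟪x, e i⟫_ℝ = 0
  diag : ∀ i j, i ≠ j → C x (e i) (e j) = 0

/-- `b_{0l}` (with `l` meaning the index `l+1`): `b_{0l} = (D_{e_0}C)(e_l,e_l,e_l) / λ_l²`, used where `λ_l ≠ 0` -/
noncomputable def bb {q : ℕ} (C : TF q) (x : E q) (e : Fin (q + 1) → E q) (l : Fin q) : ℝ :=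
  dlam C x (e 0) (e l.succ) / lam C x (e l.succ) ^ 2

/-- product of the `λ_l`, `l ≠ 0` -/
noncomputable def PP {q : ℕ} (C : TF q) (x : E q) (e : Fin (q + 1) → E q) : ℝ :=
  ∏ l : Fin q, lam C x (e l.succ)

/-- good frame: adapted and `λ_l > 0` for all `l ≠ 0` (no condition on `λ_0`) -/
structure GF {q : ℕ} (C : TF q) (x : E q) (e : Fin (q + 1) → E q) : Prop extends AF C x e where
  pos : ∀ l : Fin q, 0 < lam C x (e l.succ)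

/-- second component of the unit speed vector field on frames -/
noncomputable def v2 {q : ℕ} (C : TF q) (x : E q) (e : Fin (q + 1) → E q) : Fin (q + 1) → E q :=
  Fin.cons (-(‖x‖ ^ 2)⁻¹ • x + lam C x (e 0) • ∑ l : Fin q, bb C x e l • e l.succ)
    (fun l => -(lam C x (e 0) * bb C x e l) • e 0)

/-- the unit speed vector field on pairs (point, frame): `x' = e_0`,
`e_0' = -x/|x|² + λ_0 Σ b_l e_l`, `e_l' = -λ_0 b_l e_0` -/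
noncomputable def V1 {q : ℕ} (C : TF q) (z : E q × (Fin (q + 1) → E q)) : E q × (Fin (q + 1) → E q) :=
  (z.2 0, v2 C z.1 z.2)

/-! ### Outputs of Parts II and III (helper556) -/

/-- local smooth adapted frame through a given adapted frame with `λ_l ≠ 0`, `l ≠ 0` -/
def S_FRAME : Prop := ∀ (q : ℕ) (C : TF q) (τ : E q → ℝ), LW q C τ → ∀ (x₀ : E q) (e₀ : Fin (q + 1) → E q),
  AF C x₀ e₀ → (∀ l : Fin q, lam C x₀ (e₀ l.succ) ≠ 0) →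
  ∃ e : E q → Fin (q + 1) → E q, ContDiffAt ℝ ∞ e x₀ ∧ e x₀ = e₀ ∧ ∀ᶠ x in 𝓝 x₀, AF C x (e x)

/-- structure equations for a smooth adapted frame -/
def S_STR : Prop := ∀ (q : ℕ) (C : TF q) (τ : E q → ℝ), LW q C τ → ∀ (x₀ : E q) (e : E q → Fin (q + 1) → E q),
  ContDiffAt ℝ ∞ e x₀ → (∀ᶠ x in 𝓝 x₀, AF C x (e x)) → (∀ l : Fin q, lam C x₀ (e x₀ l.succ) ≠ 0) →
  fderiv ℝ e x₀ (e x₀ 0) = v2 C x₀ (e x₀) ∧
  (∀ l : Fin q, ⟪fderiv ℝ e x₀ (e x₀ l.succ) 0, e x₀ l.succ⟫_ℝ = -(lam C x₀ (e x₀ l.succ) * bb C x₀ (e x₀) l)) ∧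
  (∀ l : Fin q, fderiv ℝ (fun x => lam C x (e x l.succ)) x₀ (e x₀ 0)
    = lam C x₀ (e x₀ l.succ) ^ 2 * bb C x₀ (e x₀) l)

/-- the field `(Π_{l≠0} λ_l) e_0` is divergence free -/
def S_DIV : Prop := ∀ (q : ℕ) (C : TF q) (τ : E q → ℝ), LW q C τ → ∀ (x₀ : E q) (e : E q → Fin (q + 1) → E q),
  ContDiffAt ℝ ∞ e x₀ → (∀ᶠ x in 𝓝 x₀, AF C x (e x)) → (∀ l : Fin q, lam C x₀ (e x₀ l.succ) ≠ 0) →
  LinearMap.trace ℝ (E q) (fderiv ℝ (fun x => PP C x (e x) • e x 0) x₀).toLinearMap = 0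

/-- rank lemma: if `C ≠ 0` there is an adapted frame with all `λ_i ≠ 0` -/
def S_RANK : Prop := ∀ (q : ℕ) (C : TF q) (τ : E q → ℝ), LW q C τ → (∃ x, x ≠ 0 ∧ C x ≠ 0) →
  ∃ (x : E q) (e : Fin (q + 1) → E q), AF C x e ∧ ∀ i, lam C x (e i) ≠ 0

/-! ### Output of Part IV -/

/-- an integral curve of `V1` through good frames in the unit sphere, with `τ` up-down-up along it -/
def S_CURVE : Prop := ∀ (q : ℕ) (C : TF q) (τ : E q → ℝ), LW q C τ →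
  (∃ (x : E q) (e : Fin (q + 1) → E q), AF C x e ∧ ∀ i, lam C x (e i) ≠ 0) →
  ∃ (A B p₀ p₁ p₂ p₃ : ℝ) (z : ℝ → E q × (Fin (q + 1) → E q)),
    A < p₀ ∧ p₀ < p₁ ∧ p₁ < p₂ ∧ p₂ < p₃ ∧ p₃ < B ∧
    (∀ s ∈ Ioo A B, GF C (z s).1 (z s).2 ∧ ‖(z s).1‖ = 1 ∧ HasDerivAt z (V1 C (z s)) s) ∧
    τ (z p₀).1 < τ (z p₁).1 ∧ τ (z p₂).1 < τ (z p₁).1 ∧ τ (z p₂).1 < τ (z p₃).1

/-! ### Part V (helper550) -/

/-- the analytic theorem -/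
def PartV : Prop := ∀ (q : ℕ) (A B p0 p1 p2 p3 : ℝ) (lm Lam : ℝ → ℝ) (beta : ℝ → EuclideanSpace ℝ (Fin q)),
  ContDiffOn ℝ ∞ lm (Ioo A B) → ContDiffOn ℝ ∞ beta (Ioo A B) → (∀ s ∈ Ioo A B, HasDerivAt Lam (lm s) s) →
  A < p0 → p0 < p1 → p1 < p2 → p2 < p3 → p3 < B → Lam p0 < Lam p1 → Lam p2 < Lam p1 → Lam p2 < Lam p3 →
  ∃ t > 0, ∃ s0 s1, A < s0 ∧ s0 < s1 ∧ s1 < B ∧
    ∀ (c a : ℝ → ℝ) (psi : ℝ → EuclideanSpace ℝ (Fin q)), c s0 = 1 → a s0 = 0 → psi s0 = 0 →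
      (∀ s ∈ Icc s0 s1, HasDerivAt c (a s) s ∧
        HasDerivAt a (t * lm s * a s - c s + lm s * ⟪beta s, psi s⟫_ℝ) s ∧
        HasDerivAt psi (-(lm s * a s) • beta s) s) → 1 < c s1

/-- conclusion of Parts II-V -/
def S_MAIN : Prop := ∀ (q : ℕ) (C : TF q) (τ : E q → ℝ), LW q C τ → ∀ x, x ≠ 0 → C x = 0

end Pool.Agent.W617.LG
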