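import Pool.Agent.W617.LG.Defs
/-! Laugwitz' problem (MP_7dd29b_gt): statements of Part I (coordinates, Frobenius, key inequality).
Text: table heavy id 25, Part I. -/
set_option autoImplicit false
open Topology Filter Set Matrix
open scoped ContDiff InnerProductSpace

namespace Pool.Agent.W617.LG

/-- Hessian data in the original coordinates: `G` the Hessian of `F²/2`, `M_v = G⁻¹ D_v G / 2` -/
structure HD (q : ℕ) (G : E q → E q →L[ℝ] E q) (M : TF q) : Prop where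
  q1 : 1 ≤ q
  Gsm : ∀ y, y ≠ 0 → ContDiffAt ℝ ∞ G y
  Gsymm : ∀ y, y ≠ 0 → ∀ a b, ⟪G y a, b⟫_ℝ = ⟪G y b, a⟫_ℝ
  Gpos : ∀ y, y ≠ 0 → ∀ v, v ≠ 0 → 0 < ⟪G y v, v⟫_ℝ
  Ghom : ∀ y, y ≠ 0 → ∀ r : ℝ, 0 < r → G (r • y) = G y
  Msm : ∀ y, y ≠ 0 → ContDiffAt ℝ ∞ M y
  Mhom : ∀ y, y ≠ 0 → ∀ r : ℝ, 0 < r → M (r • y) = r⁻¹ • M y
  dG : ∀ y, y ≠ 0 → ∀ v, fderiv ℝ G y v = (2 : ℝ) • (G y).comp (M y v)
  M12 : ∀ y, y ≠ 0 → ∀ a b, M y a b = M y b a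
  Mrad : ∀ y, y ≠ 0 → M y y = 0
  Mcomm : ∀ y, y ≠ 0 → ∀ a b c, M y a (M y b c) = M y b (M y a c)
  Mcod : ∀ y, y ≠ 0 → ∀ u v, fderiv ℝ M y u v = fderiv ℝ M y v u

/-- from the hypotheses of the frozen statement to `HD` -/
def S_TR1 : Prop := ∀ (q : ℕ), 1 ≤ q → ∀ F : (Fin (q + 2) → ℝ) → ℝ,
    ContDiffOn ℝ ((⊤ : ℕ∞) : WithTop ℕ∞) F {x | x ≠ 0} →
    (∀ x : Fin (q + 2) → ℝ, x ≠ 0 → 0 < F x) →
    (∀ (t : ℝ) (x : Fin (q + 2) → ℝ), 0 ≤ t → F (t • x) = t * F x) →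
    (∀ x : Fin (q + 2) → ℝ, x ≠ 0 →
      (Matrix.of fun i j : Fin (q + 2) =>
        iteratedFDeriv ℝ 2 (fun y : Fin (q + 2) → ℝ => F y ^ 2 / 2) x
          ![(Pi.single i (1 : ℝ) : Fin (q + 2) → ℝ), (Pi.single j (1 : ℝ) : Fin (q + 2) → ℝ)]).PosDef) →
    (∀ x : Fin (q + 2) → ℝ, x ≠ 0 → ∀ i j k l : Fin (q + 2),
      ∑ p : Fin (q + 2), ∑ r : Fin (q + 2),
        (Matrix.of fun a b : Fin (q + 2) =>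
          iteratedFDeriv ℝ 2 (fun y : Fin (q + 2) → ℝ => F y ^ 2 / 2) x
            ![(Pi.single a (1 : ℝ) : Fin (q + 2) → ℝ), (Pi.single b (1 : ℝ) : Fin (q + 2) → ℝ)])⁻¹ p r *
        (iteratedFDeriv ℝ 3 (fun y : Fin (q + 2) → ℝ => F y ^ 2 / 2) x
            ![(Pi.single i (1 : ℝ) : Fin (q + 2) → ℝ), (Pi.single k (1 : ℝ) : Fin (q + 2) → ℝ),
              (Pi.single p (1 : ℝ) : Fin (q + 2) → ℝ)] *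
          iteratedFDeriv ℝ 3 (fun y : Fin (q + 2) → ℝ => F y ^ 2 / 2) x
            ![(Pi.single j (1 : ℝ) : Fin (q + 2) → ℝ), (Pi.single l (1 : ℝ) : Fin (q + 2) → ℝ),
              (Pi.single r (1 : ℝ) : Fin (q + 2) → ℝ)] -
         iteratedFDeriv ℝ 3 (fun y : Fin (q + 2) → ℝ => F y ^ 2 / 2) x
            ![(Pi.single i (1 : ℝ) : Fin (q + 2) → ℝ), (Pi.single l (1 : ℝ) : Fin (q + 2) → ℝ),
              (Pi.single p (1 : ℝ) : Fin (q + 2) → ℝ)] *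
          iteratedFDeriv ℝ 3 (fun y : Fin (q + 2) → ℝ => F y ^ 2 / 2) x
            ![(Pi.single j (1 : ℝ) : Fin (q + 2) → ℝ), (Pi.single k (1 : ℝ) : Fin (q + 2) → ℝ),
              (Pi.single r (1 : ℝ) : Fin (q + 2) → ℝ)]) = 0) →
    ∃ (G : E q → E q →L[ℝ] E q) (M : TF q), HD q G M ∧
      ∀ y : E q, y ≠ 0 → F (WithLp.ofLp y) ^ 2 = ⟪G y y, y⟫_ℝ

/-- back to matrices when `G` is constant -/
def S_TR2 : Prop := ∀ (q : ℕ) (F : (Fin (q + 2) → ℝ) → ℝ) (G₀ : E q →L[ℝ] E q),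
    (∀ x : Fin (q + 2) → ℝ, x ≠ 0 → 0 < F x) →
    (∀ (t : ℝ) (x : Fin (q + 2) → ℝ), 0 ≤ t → F (t • x) = t * F x) →
    (∀ a b, ⟪G₀ a, b⟫_ℝ = ⟪G₀ b, a⟫_ℝ) → (∀ v, v ≠ 0 → 0 < ⟪G₀ v, v⟫_ℝ) →
    (∀ y : E q, y ≠ 0 → F (WithLp.ofLp y) ^ 2 = ⟪G₀ y, y⟫_ℝ) →
    ∃ A : Matrix (Fin (q + 2)) (Fin (q + 2)) ℝ, A.PosDef ∧
      ∀ x : Fin (q + 2) → ℝ, F x = Real.sqrt (x ⬝ᵥ A *ᵥ x)

/-- Poincaré lemma for closed 1-forms on `ℝ^(q+2) ∖ 0`, `q ≥ 1` -/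
def S_POIN : Prop := ∀ (q : ℕ), 1 ≤ q → ∀ (F : Type) [NormedAddCommGroup F] [NormedSpace ℝ F]
    [CompleteSpace F] (om : E q → E q →L[ℝ] F), (∀ x, x ≠ 0 → ContDiffAt ℝ 1 om x) →
    (∀ x, x ≠ 0 → ∀ u v, fderiv ℝ om x u v = fderiv ℝ om x v u) →
    ∃ f : E q → F, ∀ x, x ≠ 0 → HasFDerivAt f (om x) x

/-- uniqueness for linear total differential equations on `ℝ^(q+2) ∖ 0` -/
def S_UNI : Prop := ∀ (q : ℕ) (F : Type) [NormedAddCommGroup F] [NormedSpace ℝ F]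
    (f : E q → F) (L : E q → E q →L[ℝ] F) (K : E q → ℝ), ContinuousOn K {y | y ≠ 0} →
    (∀ y, y ≠ 0 → HasFDerivAt f (L y) y ∧ ‖L y‖ ≤ K y * ‖f y‖) →
    (∃ y₀, y₀ ≠ 0 ∧ f y₀ = 0) → ∀ y, y ≠ 0 → f y = 0

/-- coefficients of the power series in `κ` -/
def S_SER : Prop := ∀ (q : ℕ) (G : E q → E q →L[ℝ] E q) (M : TF q), HD q G M →
  ∃ (B : ℕ → E q → (E q →L[ℝ] E q)) (R : ℝ) (p : E q), 0 ≤ R ∧ p ≠ 0 ∧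
    (B 0 = fun _ => ContinuousLinearMap.id ℝ (E q)) ∧
    (∀ j y, y ≠ 0 → HasFDerivAt (B (j + 1))
      ((ContinuousLinearMap.compL ℝ (E q) (E q) (E q) (B j y)).comp (M y)) y) ∧
    (∀ j y, y ≠ 0 → ‖B j y‖ ≤ R ^ j / (j.factorial : ℝ)) ∧
    (∀ j y, y ≠ 0 → ∀ r : ℝ, 0 < r → B j (r • y) = B j y) ∧ ∀ j, B (j + 1) p = 0

/-- the family `N^κ` -/
structure NF (q : ℕ) (M : TF q) (N : ℝ → E q → (E q →L[ℝ] E q)) : Prop where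
  der : ∀ κ y, y ≠ 0 → HasFDerivAt (N κ)
    (κ • ((ContinuousLinearMap.compL ℝ (E q) (E q) (E q) (N κ y)).comp (M y))) y
  zero : ∀ y, y ≠ 0 → N 0 y = ContinuousLinearMap.id ℝ (E q)
  unit : ∀ κ y, y ≠ 0 → IsUnit (N κ y)
  cont : ContinuousOn (fun p : ℝ × E q => N p.1 p.2) {p | p.2 ≠ 0}
  hom : ∀ κ y, y ≠ 0 → ∀ r : ℝ, 0 < r → N κ (r • y) = N κ y

/-- existence of the family -/
def S_NF : Prop := ∀ (q : ℕ) (G : E q → E q →L[ℝ] E q) (M : TF q), HD q G M → ∃ N, NF q M N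

/-- smoothness -/
def S_SMN : Prop := ∀ (q : ℕ) (G : E q → E q →L[ℝ] E q) (M : TF q) (N : ℝ → E q → (E q →L[ℝ] E q)),
  HD q G M → NF q M N → ∀ κ y, y ≠ 0 → ContDiffAt ℝ ∞ (N κ) y

/-- injectivity of `Z_κ(y) = N^κ(y) y` -/
def S_INJ : Prop := ∀ (q : ℕ) (G : E q → E q →L[ℝ] E q) (M : TF q) (N : ℝ → E q → (E q →L[ℝ] E q)),
  HD q G M → NF q M N → ∀ κ y y', y ≠ 0 → y' ≠ 0 → N κ y y = N κ y' y' → y = y'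

/-- surjectivity of `Z_κ` -/
def S_SUR : Prop := ∀ (q : ℕ) (G : E q → E q →L[ℝ] E q) (M : TF q) (N : ℝ → E q → (E q →L[ℝ] E q)),
  HD q G M → NF q M N → ∀ κ x, x ≠ 0 → ∃ y, y ≠ 0 ∧ N κ y y = x

/-- normalisation at `κ = 1`: `(AN)^T (AN) = G` -/
def S_ISO : Prop := ∀ (q : ℕ) (G : E q → E q →L[ℝ] E q) (M : TF q) (N : ℝ → E q → (E q →L[ℝ] E q)),
  HD q G M → NF q M N → ∃ A : E q →L[ℝ] E q, IsUnit A ∧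
    ∀ y, y ≠ 0 → ∀ a b, ⟪A (N 1 y a), A (N 1 y b)⟫_ℝ = ⟪G y a, b⟫_ℝ

/-- transfer data -/
structure TD (q : ℕ) (G : E q → E q →L[ℝ] E q) (M : TF q) (N : ℝ → E q → (E q →L[ℝ] E q))
    (A : E q →L[ℝ] E q) (Y : E q → E q) : Prop where
  hd : HD q G M
  nf : NF q M N
  unitA : IsUnit A
  iso : ∀ y, y ≠ 0 → ∀ a b, ⟪A (N 1 y a), A (N 1 y b)⟫_ℝ = ⟪G y a, b⟫_ℝ
  smN : ∀ κ y, y ≠ 0 → ContDiffAt ℝ ∞ (N κ) y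
  inj : ∀ κ y y', y ≠ 0 → y' ≠ 0 → N κ y y = N κ y' y' → y = y'
  Y0 : ∀ x, x ≠ 0 → Y x ≠ 0
  Yinv : ∀ x, x ≠ 0 → A (N 1 (Y x) (Y x)) = x
  Yinv' : ∀ y, y ≠ 0 → Y (A (N 1 y y)) = y
  Ysm : ∀ x, x ≠ 0 → ContDiffAt ℝ ∞ Y x
  Yder : ∀ x, x ≠ 0 → HasFDerivAt Y (Ring.inverse (A * N 1 (Y x))) x
  Yhom : ∀ x, x ≠ 0 → ∀ r : ℝ, 0 < r → Y (r • x) = r • Y x

/-- the flat coordinates -/
def S_INV : Prop := ∀ (q : ℕ) (G : E q → E q →L[ℝ] E q) (M : TF q) (N : ℝ → E q → (E q →L[ℝ] E q))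
  (A : E q →L[ℝ] E q), HD q G M → NF q M N → IsUnit A →
    (∀ y, y ≠ 0 → ∀ a b, ⟪A (N 1 y a), A (N 1 y b)⟫_ℝ = ⟪G y a, b⟫_ℝ) → ∃ Y, TD q G M N A Y

/-- the tensor in flat coordinates: `C_v = - P M_{P⁻¹ v} P⁻¹` at `y = Y(x)`, `P = A N^1(y)` -/
noncomputable def CC {q : ℕ} (M : TF q) (N : ℝ → E q → (E q →L[ℝ] E q)) (A : E q →L[ℝ] E q)
    (Y : E q → E q) : TF q := fun x =>
  -((((ContinuousLinearMap.compL ℝ (E q) (E q) (E q) (A * N 1 (Y x))).comp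
    ((ContinuousLinearMap.compL ℝ (E q) (E q) (E q)).flip (Ring.inverse (A * N 1 (Y x))))).comp
    (M (Y x))).comp (Ring.inverse (A * N 1 (Y x))))

/-- `LW` without `τ` and the key inequality -/
structure CW (q : ℕ) (C : TF q) : Prop where
  q1 : 1 ≤ q
  smooth : ∀ x, x ≠ 0 → ContDiffAt ℝ ∞ C x
  comm12 : ∀ x, x ≠ 0 → ∀ a b, C x a b = C x b a
  symm : ∀ x, x ≠ 0 → ∀ a b c, ⟪C x a b, c⟫_ℝ = ⟪C x a c, b⟫_ℝ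
  rad : ∀ x, x ≠ 0 → C x x = 0
  hom : ∀ x, x ≠ 0 → ∀ r : ℝ, 0 < r → C (r • x) = r⁻¹ • C x
  cod : ∀ x, x ≠ 0 → ∀ u v, fderiv ℝ C x u v = fderiv ℝ C x v u
  comm : ∀ x, x ≠ 0 → ∀ a b c, C x a (C x b c) = C x b (C x a c)

/-- smoothness and Codazzi equation of `CC` -/
def S_CC1 : Prop := ∀ (q : ℕ) (G : E q → E q →L[ℝ] E q) (M : TF q) (N : ℝ → E q → (E q →L[ℝ] E q))
  (A : E q →L[ℝ] E q) (Y : E q → E q), TD q G M N A Y →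
  (∀ x, x ≠ 0 → ContDiffAt ℝ ∞ (CC M N A Y) x) ∧
  ∀ x, x ≠ 0 → ∀ u v, fderiv ℝ (CC M N A Y) x u v = fderiv ℝ (CC M N A Y) x v u

/-- algebraic properties of `CC` -/
def S_CC2 : Prop := ∀ (q : ℕ) (G : E q → E q →L[ℝ] E q) (M : TF q) (N : ℝ → E q → (E q →L[ℝ] E q))
  (A : E q →L[ℝ] E q) (Y : E q → E q), TD q G M N A Y → ∀ x, x ≠ 0 →
  (∀ a b, CC M N A Y x a b = CC M N A Y x b a) ∧
  (∀ a b c, ⟪CC M N A Y x a b, c⟫_ℝ = ⟪CC M N A Y x a c, b⟫_ℝ) ∧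
  CC M N A Y x x = 0 ∧
  (∀ r : ℝ, 0 < r → CC M N A Y (r • x) = r⁻¹ • CC M N A Y x) ∧
  (∀ a b c, CC M N A Y x a (CC M N A Y x b c) = CC M N A Y x b (CC M N A Y x a c)) ∧
  (CC M N A Y x = 0 → M (Y x) = 0)

/-- the family `J_t` -/
structure JF (q : ℕ) (C : TF q) (J : ℝ → E q → (E q →L[ℝ] E q)) : Prop where
  der : ∀ t x, x ≠ 0 → HasFDerivAt (J t)
    (t • ((ContinuousLinearMap.compL ℝ (E q) (E q) (E q) (J t x)).comp (C x))) x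
  unit : ∀ t x, x ≠ 0 → IsUnit (J t x)
  inj : ∀ t x x', x ≠ 0 → x' ≠ 0 → J t x x = J t x' x' → x = x'

def S_JF : Prop := ∀ (q : ℕ) (G : E q → E q →L[ℝ] E q) (M : TF q) (N : ℝ → E q → (E q →L[ℝ] E q))
  (A : E q →L[ℝ] E q) (Y : E q → E q), TD q G M N A Y →
  JF q (CC M N A Y) (fun t x => N (1 - t) (Y x) * Ring.inverse (A * N 1 (Y x)))

/-- the key inequality (I.7) -/
def S_KEY : Prop := ∀ (q : ℕ) (C : TF q) (J : ℝ → E q → (E q →L[ℝ] E q)), CW q C → JF q C J →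
  ∀ (t : ℝ) (u : E q), ‖u‖ = 1 → ∃ W : E q → E q, W u = u ∧
    (∀ x, x ≠ 0 → HasFDerivAt W (t • (C x).flip (W x)) x) ∧ ∀ x, ‖x‖ = 1 → ⟪W x, x⟫_ℝ ≤ 1

/-- the potential `τ` -/
def S_TAU : Prop := ∀ (q : ℕ) (C : TF q), CW q C → ∃ τ : E q → ℝ,
  (∀ x, x ≠ 0 → ContDiffAt ℝ ∞ τ x) ∧
  (∀ x, x ≠ 0 → ∀ v, fderiv ℝ τ x v = LinearMap.trace ℝ (E q) (C x v).toLinearMap) ∧
  (∀ x, x ≠ 0 → ∀ r : ℝ, 0 < r → τ (r • x) = τ x)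

/-- conclusion of Part I -/
def S_I : Prop := ∀ (q : ℕ) (G : E q → E q →L[ℝ] E q) (M : TF q), HD q G M →
  ∃ (C : TF q) (τ : E q → ℝ), LW q C τ ∧ ((∀ x, x ≠ 0 → C x = 0) → ∀ y, y ≠ 0 → M y = 0)

end Pool.Agent.W617.LG
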