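import Pool.Agent.W617.LG.StmIV
/-! Laugwitz' problem (MP_7dd29b_gt): Part II (local frames).  Text: table heavy id 25, Part II. -/
set_option autoImplicit false
open Topology Filter Set
open scoped ContDiff InnerProductSpace

namespace Pool.Agent.W617.LG

/-- smooth dependence of a simple eigenvector of a symmetric operator -/
def S_EIG : Prop := ∀ (q : ℕ) (S : E q → E q →L[ℝ] E q) (x₀ v₀ : E q) (μ₀ : ℝ),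
  (∀ᶠ x in 𝓝 x₀, ContDiffAt ℝ ∞ S x) → (∀ᶠ x in 𝓝 x₀, ∀ a b, ⟪S x a, b⟫_ℝ = ⟪S x b, a⟫_ℝ) →
  ‖v₀‖ = 1 → S x₀ v₀ = μ₀ • v₀ → (∀ w, S x₀ w = μ₀ • w → ∃ c : ℝ, w = c • v₀) →
  ∃ (v : E q → E q) (μ : E q → ℝ), v x₀ = v₀ ∧ μ x₀ = μ₀ ∧
    ∀ᶠ x in 𝓝 x₀, ContDiffAt ℝ ∞ v x ∧ ContDiffAt ℝ ∞ μ x ∧ S x (v x) = μ x • v x ∧ ‖v x‖ = 1

end Pool.Agent.W617.LG
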