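import Pool.Agent.W617.LG.Defs
/-! Laugwitz' problem (MP_7dd29b_gt): statements of Part IV (flow on frames, volume, return) and of the
final step.  Text: table heavy id 25, Part IV. -/
set_option autoImplicit false
open Topology Filter Set MeasureTheory
open scoped ContDiff InnerProductSpace

namespace Pool.Agent.W617.LG

/-- points with frames -/
abbrev FB (q : ℕ) := E q × (Fin (q + 1) → E q)

/-- the field `P • V1` on frames -/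
noncomputable def XF {q : ℕ} (C : TF q) (z : FB q) : FB q := PP C z.1 z.2 • V1 C z

/-- the open set where the fields are smooth -/
def Om {q : ℕ} (C : TF q) : Set (FB q) := {z | z.1 ≠ 0 ∧ ∀ l : Fin q, 0 < lam C z.1 (z.2 l.succ)}

/-- good frames over the annulus -/
def GA {q : ℕ} (C : TF q) : Set (FB q) := {z | GF C z.1 z.2 ∧ 1 ≤ ‖z.1‖ ∧ ‖z.1‖ ≤ 2}

/-- good frames over the annulus with `λ_l ≥ δ`, `l ≠ 0` -/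
def Kd {q : ℕ} (C : TF q) (δ : ℝ) : Set (FB q) :=
  {z | z ∈ GA C ∧ ∀ l : Fin q, δ ≤ lam C z.1 (z.2 l.succ)}

/-- local smooth adapted frame (strengthened S_FRAME: smooth at all points near `x₀`) -/
def S_FRAME' : Prop := ∀ (q : ℕ) (C : TF q) (τ : E q → ℝ), LW q C τ →
  ∀ (x₀ : E q) (e₀ : Fin (q + 1) → E q),
  AF C x₀ e₀ → (∀ l : Fin q, lam C x₀ (e₀ l.succ) ≠ 0) →
  ∃ e : E q → Fin (q + 1) → E q, e x₀ = e₀ ∧ ∀ᶠ x in 𝓝 x₀, ContDiffAt ℝ ∞ e x ∧ AF C x (e x)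

/-- smoothness of the fields -/
def S_SMX : Prop := ∀ (q : ℕ) (C : TF q) (τ : E q → ℝ), LW q C τ →
  IsOpen (Om C) ∧ ContDiffOn ℝ ∞ (V1 C) (Om C) ∧ ContDiffOn ℝ ∞ (XF C) (Om C)

/-- compactness of `Kd`, and `X(log λ_l)` is bounded over the annulus -/
def S_CPT : Prop := ∀ (q : ℕ) (C : TF q) (τ : E q → ℝ), LW q C τ →
  (∀ δ > 0, IsCompact (Kd C δ)) ∧
  ∃ K > 0, ∀ z ∈ GA C, ∀ l : Fin q,
    |PP C z.1 z.2 * (lam C z.1 (z.2 l.succ) * bb C z.1 z.2 l)| ≤ K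

/-- uniqueness of integral curves in an open set where the field is smooth -/
def S_UNQ : Prop := ∀ (q : ℕ) (X : FB q → FB q) (U : Set (FB q)), IsOpen U → ContDiffOn ℝ ∞ X U →
  ∀ (a b t₀ : ℝ) (γ δ : ℝ → FB q), t₀ ∈ Ioo a b →
    (∀ t ∈ Ioo a b, γ t ∈ U ∧ HasDerivAt γ (X (γ t)) t) →
    (∀ t ∈ Ioo a b, δ t ∈ U ∧ HasDerivAt δ (X (δ t)) t) → γ t₀ = δ t₀ → ∀ t ∈ Ioo a b, γ t = δ t

/-- integral curves are smooth -/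
def S_SMO : Prop := ∀ (q : ℕ) (X : FB q → FB q) (U : Set (FB q)), IsOpen U → ContDiffOn ℝ ∞ X U →
  ∀ (a b : ℝ) (γ : ℝ → FB q), (∀ t ∈ Ioo a b, γ t ∈ U ∧ HasDerivAt γ (X (γ t)) t) →
    ContDiffOn ℝ ∞ γ (Ioo a b)

/-- integral curves of `XF` inside `Om` starting at a good frame stay good frames -/
def S_TAN : Prop := ∀ (q : ℕ) (C : TF q) (τ : E q → ℝ), LW q C τ →
  ∀ (a b t₀ : ℝ) (γ : ℝ → FB q), t₀ ∈ Ioo a b →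
    (∀ t ∈ Ioo a b, γ t ∈ Om C ∧ HasDerivAt γ (XF C (γ t)) t) → GF C (γ t₀).1 (γ t₀).2 →
    ∀ t ∈ Ioo a b, GF C (γ t).1 (γ t).2 ∧ ‖(γ t).1‖ = ‖(γ t₀).1‖ ∧
      ∀ l : Fin q, HasDerivAt (fun s => lam C (γ s).1 ((γ s).2 l.succ))
        (PP C (γ t).1 (γ t).2 * (lam C (γ t).1 ((γ t).2 l.succ) ^ 2 * bb C (γ t).1 (γ t).2 l)) t

/-- good frames over a point: finitely many, pairwise far apart -/
def S_FIB : Prop := ∀ (q : ℕ) (C : TF q) (τ : E q → ℝ), LW q C τ →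
  (∀ x : E q, {f | GF C x f}.encard ≤ (((2 * (q + 1)) ^ (q + 1) : ℕ) : ℕ∞)) ∧
  ∀ (x : E q) (e f : Fin (q + 1) → E q), GF C x e → GF C x f → (∀ i, ‖e i - f i‖ < 1) → e = f

/-- a field smooth near a compact set agrees near it with a field with a smooth complete flow -/
def S_FLC : Prop := ∀ (q : ℕ) (X : FB q → FB q) (U K : Set (FB q)), IsOpen U → IsCompact K → K ⊆ U →
  ContDiffOn ℝ ∞ X U → ∃ (Y : FB q → FB q) (G : ℝ → FB q → FB q), (∀ᶠ z in 𝓝ˢ K, Y z = X z) ∧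
    ContDiff ℝ ∞ (fun p : ℝ × FB q => G p.1 p.2) ∧ (∀ z, G 0 z = z) ∧
    ∀ z t, HasDerivAt (fun t => G t z) (Y (G t z)) t

/-- flow on `Kd` up to time `T` -/
def S_FLT : Prop := ∀ (q : ℕ) (C : TF q) (τ : E q → ℝ), LW q C τ → ∀ δ > 0, ∀ T > 0,
  ∃ G : ℝ → FB q → FB q, ContDiff ℝ ∞ (fun p : ℝ × FB q => G p.1 p.2) ∧
    ∀ z ∈ Kd C δ, G 0 z = z ∧ ∀ s, |s| ≤ T → G s z ∈ GA C ∧ ‖(G s z).1‖ = ‖z.1‖ ∧
      HasDerivAt (fun s => G s z) (XF C (G s z)) s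

/-- `φ` is the flow of `XF` on the good frames over the annulus -/
structure FL (q : ℕ) (C : TF q) (φ : ℝ → FB q → FB q) : Prop where
  zero : ∀ z ∈ GA C, φ 0 z = z
  mem : ∀ z ∈ GA C, ∀ s, φ s z ∈ GA C
  norm : ∀ z ∈ GA C, ∀ s, ‖(φ s z).1‖ = ‖z.1‖
  der : ∀ z ∈ GA C, ∀ s, HasDerivAt (fun s => φ s z) (XF C (φ s z)) s
  add : ∀ z ∈ GA C, ∀ s t, φ (s + t) z = φ s (φ t z)
  smooth : ∀ (x₀ : E q) (e : E q → Fin (q + 1) → E q), 1 < ‖x₀‖ → ‖x₀‖ < 2 → ContDiffAt ℝ ∞ e x₀ →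
    (∀ᶠ x in 𝓝 x₀, GF C x (e x)) → ∀ s, ContDiffAt ℝ ∞ (fun p : ℝ × E q => φ p.1 (p.2, e p.2)) (s, x₀)

def S_FL : Prop := ∀ (q : ℕ) (C : TF q) (τ : E q → ℝ), LW q C τ → ∃ φ, FL q C φ

/-- Liouville's formula, trace zero -/
def S_LIOU : Prop := ∀ (q : ℕ) (A B : ℝ → (E q →L[ℝ] E q)),
  (∀ s, HasDerivAt A ((B s).comp (A s)) s) → (∀ s, LinearMap.trace ℝ (E q) (B s).toLinearMap = 0) →
  ∀ s, (A s).det = (A 0).det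

/-- the flow preserves volume -/
def S_JAC : Prop := ∀ (q : ℕ) (C : TF q) (τ : E q → ℝ) (φ : ℝ → FB q → FB q), LW q C τ → FL q C φ →
  ∀ (x₀ : E q) (e : E q → Fin (q + 1) → E q), 1 < ‖x₀‖ → ‖x₀‖ < 2 → ContDiffAt ℝ ∞ e x₀ →
    (∀ᶠ x in 𝓝 x₀, GF C x (e x)) → ∀ s, (fderiv ℝ (fun x => (φ s (x, e x)).1) x₀).det = 1

/-- recurrence for volume preserving multivalued maps (pure measure theory) -/
def S_RET : Prop := ∀ (q : ℕ) (Z : Type) (π : Z → E q) (Φ : ℕ → E q → Z) (K R : Set (E q)) (N₀ : ℕ)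
  (G : Set Z), IsCompact K → 0 < volume K → MeasurableSet R → volume R < ⊤ →
  (∀ w, {z | z ∈ G ∧ π z = w}.encard ≤ (N₀ : ℕ∞)) → (∀ j, InjOn (Φ j) K) →
  (∀ j, ∀ x ∈ K, Φ j x ∈ G ∧ π (Φ j x) ∈ R) →
  (∀ j, ∀ x ∈ K, ContDiffAt ℝ 1 (fun x => π (Φ j x)) x ∧ (fderiv ℝ (fun x => π (Φ j x)) x).det = 1) →
  ∃ j j' : ℕ, j < j' ∧ ∃ x ∈ K, ∃ x' ∈ K, Φ j x = Φ j' x'

/-- an orbit along which `τ` goes up, down, up -/
def S_UDU : Prop := ∀ (q : ℕ) (C : TF q) (τ : E q → ℝ) (φ : ℝ → FB q → FB q), LW q C τ → FL q C φ →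
  (∃ (x : E q) (e : Fin (q + 1) → E q), AF C x e ∧ ∀ i, lam C x (e i) ≠ 0) →
  ∃ z ∈ GA C, ∃ s₁ s₂ : ℝ, 0 < s₁ ∧ s₁ < s₂ ∧ τ z.1 < τ (φ s₁ z).1 ∧ τ (φ s₂ z).1 < τ (φ s₁ z).1 ∧
    τ (φ s₂ z).1 < τ (φ (s₂ + s₁) z).1

end Pool.Agent.W617.LG
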